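import Pool.Agent.Y594.NT.Stm

/-!
Library Y815.NT (helper815), task NT-PRIM of the project Y594.NT: many primitive vectors off
finitely many hyperplanes.
-/

set_option autoImplicit false

open Finset

namespace Pool.Agent.Y815.NT

theorem sum_sq (Y : ℕ) (hY : 2 ≤ Y) : ∑ d ∈ Icc 2 Y, (1 : ℝ) / (d : ℝ) ^ 2 ≤ 3 / 4 - 1 / Y := by
  induction Y, hY using Nat.le_induction with
  | base => norm_num
  | succ n hn ih =>
    rw [Finset.sum_Icc_succ_top (by omega)]
    have hn0 : (0 : ℝ) < n := by exact_mod_cast (by omega : 0 < n)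
    have h1 : (1 : ℝ) / ((n + 1 : ℕ) : ℝ) ^ 2 ≤ 1 / n - 1 / ((n + 1 : ℕ) : ℝ) := by
      push_cast
      rw [div_sub_div _ _ hn0.ne' (by positivity), div_le_div_iff₀ (by positivity) (by positivity)]
      nlinarith
    linarith

theorem card_mult (Y d : ℕ) (hd : 1 ≤ d) :
    ((((Icc (1 : ℤ) Y).filter fun t => (d : ℤ) ∣ t).card : ℕ) : ℝ) ≤ (Y : ℝ) / d := by
  have h1 : ((Icc (1 : ℤ) Y).filter fun t => (d : ℤ) ∣ t).card ≤ (Icc (1 : ℤ) ((Y / d : ℕ) : ℤ)).card := by
    apply card_le_card_of_injOn (fun t => t / (d : ℤ))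
    · intro t ht
      simp only [coe_filter, mem_Icc, Set.mem_ofPred_eq] at ht
      obtain ⟨⟨h2, h3⟩, k, hk⟩ := ht
      have hd' : (0 : ℤ) < d := by exact_mod_cast hd
      simp only [coe_Icc, Set.mem_Icc]
      rw [hk, Int.mul_ediv_cancel_left _ hd'.ne']
      constructor
      · by_contra hcon
        push Not at hcon
        nlinarith
      · push_cast
        rw [Int.le_ediv_iff_mul_le hd']
        linarith [mul_comm k (d : ℤ)]
    · intro t ht t' ht' he
      simp only [coe_filter, mem_Icc, Set.mem_ofPred_eq] at ht ht'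
      obtain ⟨k, hk⟩ := ht.2
      obtain ⟨k', hk'⟩ := ht'.2
      have hd' : (d : ℤ) ≠ 0 := by exact_mod_cast (by omega : d ≠ 0)
      have he' : t / (d : ℤ) = t' / (d : ℤ) := he
      rw [hk, hk', Int.mul_ediv_cancel_left _ hd', Int.mul_ediv_cancel_left _ hd'] at he'
      rw [hk, hk', he']
  rw [Int.card_Icc] at h1
  have h2 : ((((Icc (1 : ℤ) Y).filter fun t => (d : ℤ) ∣ t).card : ℕ) : ℝ) ≤ ((Y / d : ℕ) : ℝ) := by
    have h3 : ((((Y / d : ℕ) : ℤ) + 1 - 1).toNat) = Y / d := by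
      rw [add_sub_cancel_right, Int.toNat_natCast]
    rw [h3] at h1
    exact_mod_cast h1
  exact h2.trans Nat.cast_div_le

theorem prim : Pool.Agent.Y594.NT.S_PRIM := by
  classical
  intro m q hm L hL
  refine ⟨1 / 8, by norm_num, 8 * q + 2, fun Y hY => ?_⟩
  set B : Finset (Fin (m + 1) → ℤ) := Fintype.piFinset fun _ : Fin (m + 1) => Icc (1 : ℤ) Y with hBdef
  have hY2 : 2 ≤ Y := by omega
  have hYp : (0 : ℝ) < Y := by exact_mod_cast (by omega : 0 < Y)
  have hB : B.card = Y ^ (m + 1) := by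
    rw [hBdef, Fintype.card_piFinset_const, Int.card_Icc]
    simp
  set P := B.filter fun x => univ.gcd x = 1 ∧ ∀ i, ∑ j, L i j * x j ≠ 0 with hP
  set D : ℕ → Finset (Fin (m + 1) → ℤ) := fun d => B.filter fun x => ∀ j, (d : ℤ) ∣ x j with hD
  set Z : Fin q → Finset (Fin (m + 1) → ℤ) := fun i => B.filter fun x => ∑ j, L i j * x j = 0 with hZ
  have hcov : B ⊆ P ∪ ((Icc 2 Y).biUnion D) ∪ (univ.biUnion Z) := by
    intro x hx
    rw [mem_union, mem_union]
    by_cases h1 : ∃ i, ∑ j, L i j * x j = 0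
    · obtain ⟨i, hi⟩ := h1
      right
      rw [mem_biUnion]
      exact ⟨i, mem_univ _, mem_filter.mpr ⟨hx, hi⟩⟩
    · push Not at h1
      left
      by_cases h2 : univ.gcd x = 1
      · left
        exact mem_filter.mpr ⟨hx, h2, h1⟩
      · right
        rw [mem_biUnion]
        have hx0 := (Fintype.mem_piFinset.mp hx) 0
        rw [mem_Icc] at hx0
        have hdv : ∀ j, univ.gcd x ∣ x j := fun j => Finset.gcd_dvd (mem_univ j)
        have hne : univ.gcd x ≠ 0 := by
          intro h0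
          have := hdv 0
          rw [h0, zero_dvd_iff] at this
          omega
        have hdn : ∀ j, ((univ.gcd x).natAbs : ℤ) ∣ x j := fun j => Int.natAbs_dvd.mpr (hdv j)
        refine ⟨(univ.gcd x).natAbs, ?_, mem_filter.mpr ⟨hx, hdn⟩⟩
        rw [mem_Icc]
        constructor
        · by_contra hcon
          have h3 : (univ.gcd x).natAbs = 1 := by
            have : (univ.gcd x).natAbs ≠ 0 := Int.natAbs_ne_zero.mpr hne
            omega
          have h4 : IsUnit (univ.gcd x) := Int.isUnit_iff_natAbs_eq.mpr h3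
          apply h2
          rw [← Finset.normalize_gcd]
          exact normalize_eq_one.mpr h4
        · have h3 := Int.le_of_dvd (by omega) (hdn 0)
          omega
  have hcard : (B.card : ℝ) ≤ P.card + ∑ d ∈ Icc 2 Y, ((D d).card : ℝ) + ∑ i, ((Z i).card : ℝ) := by
    have h1 : B.card ≤ P.card + ∑ d ∈ Icc 2 Y, (D d).card + ∑ i, (Z i).card := by
      refine (card_le_card hcov).trans ((card_union_le _ _).trans ?_)
      exact add_le_add ((card_union_le _ _).trans (add_le_add le_rfl card_biUnion_le)) card_biUnion_le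
    exact_mod_cast h1
  have hDc : ∀ d ∈ Icc 2 Y, ((D d).card : ℝ) ≤ (Y : ℝ) ^ (m + 1) * (1 / (d : ℝ) ^ 2) := by
    intro d hd
    rw [mem_Icc] at hd
    have hd1 : (1 : ℝ) ≤ d := by exact_mod_cast (by omega : 1 ≤ d)
    have h1 : D d = Fintype.piFinset fun _ : Fin (m + 1) => (Icc (1 : ℤ) Y).filter fun t => (d : ℤ) ∣ t := by
      ext x
      simp only [hD, hBdef, mem_filter, Fintype.mem_piFinset]
      exact ⟨fun h j => ⟨h.1 j, h.2 j⟩, fun h => ⟨fun j => (h j).1, fun j => (h j).2⟩⟩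
    rw [h1, Fintype.card_piFinset_const]
    push_cast
    have h2 := card_mult Y d (by omega)
    calc ((((Icc (1 : ℤ) Y).filter fun t => (d : ℤ) ∣ t).card : ℕ) : ℝ) ^ (m + 1)
        ≤ ((Y : ℝ) / d) ^ (m + 1) := pow_le_pow_left₀ (by positivity) h2 _
      _ = (Y : ℝ) ^ (m + 1) * (1 / (d : ℝ) ^ (m + 1)) := by rw [div_pow]; ring
      _ ≤ _ := by
        apply mul_le_mul_of_nonneg_left _ (by positivity)
        apply one_div_le_one_div_of_le (by positivity)
        exact pow_le_pow_right₀ hd1 (by omega)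
  have hZc : ∀ i, ((Z i).card : ℝ) ≤ (Y : ℝ) ^ m := by
    intro i
    obtain ⟨j0, hj0⟩ : ∃ j0, L i j0 ≠ 0 := by
      by_contra hcon
      push Not at hcon
      exact hL i (funext hcon)
    have h1 : (Z i).card ≤ (Fintype.piFinset fun _ : Fin m => Icc (1 : ℤ) Y).card := by
      apply card_le_card_of_injOn (fun x k => x (j0.succAbove k))
      · intro x hx
        have hx' := (mem_filter.mp (mem_coe.mp hx)).1
        rw [mem_coe, Fintype.mem_piFinset]
        intro k
        exact (Fintype.mem_piFinset.mp hx') _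
      · intro x hx x' hx' he
        have h2 := (mem_filter.mp (mem_coe.mp hx)).2
        have h3 := (mem_filter.mp (mem_coe.mp hx')).2
        rw [Fin.sum_univ_succAbove _ j0] at h2 h3
        have h4 : ∀ k, x (j0.succAbove k) = x' (j0.succAbove k) := fun k => congrFun he k
        have h5 : ∑ k, L i (j0.succAbove k) * x (j0.succAbove k) =
            ∑ k, L i (j0.succAbove k) * x' (j0.succAbove k) :=
          sum_congr rfl fun k _ => by rw [h4]
        have h6 : L i j0 * x j0 = L i j0 * x' j0 := by linarith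
        funext j
        by_cases hj : j = j0
        · rw [hj]; exact mul_left_cancel₀ hj0 h6
        · obtain ⟨k, hk⟩ := Fin.exists_succAbove_eq hj
          rw [← hk]; exact h4 k
    rw [Fintype.card_piFinset_const, Int.card_Icc] at h1
    have h2 : (Z i).card ≤ Y ^ m := by simpa using h1
    exact_mod_cast h2
  have h1 : ∑ d ∈ Icc 2 Y, ((D d).card : ℝ) ≤ (Y : ℝ) ^ (m + 1) * (3 / 4) := by
    calc ∑ d ∈ Icc 2 Y, ((D d).card : ℝ) ≤ ∑ d ∈ Icc 2 Y, (Y : ℝ) ^ (m + 1) * (1 / (d : ℝ) ^ 2) := sum_le_sum hDc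
      _ = (Y : ℝ) ^ (m + 1) * ∑ d ∈ Icc 2 Y, (1 / (d : ℝ) ^ 2) := by rw [mul_sum]
      _ ≤ _ := by
        apply mul_le_mul_of_nonneg_left _ (by positivity)
        have h2 := sum_sq Y hY2
        have h3 : 0 < 1 / (Y : ℝ) := by positivity
        linarith
  have h2 : ∑ i, ((Z i).card : ℝ) ≤ q * (Y : ℝ) ^ m := by
    calc ∑ i, ((Z i).card : ℝ) ≤ ∑ _i : Fin q, (Y : ℝ) ^ m := sum_le_sum fun i _ => hZc i
      _ = _ := by simp
  have h3 : (q : ℝ) * (Y : ℝ) ^ m ≤ (Y : ℝ) ^ (m + 1) * (1 / 8) := by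
    have h4 : (8 : ℝ) * q ≤ Y := by exact_mod_cast (by omega : 8 * q ≤ Y)
    rw [pow_succ]
    nlinarith [pow_pos hYp m]
  rw [hB] at hcard
  push_cast at hcard
  linarith

end Pool.Agent.Y815.NT
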