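import Pool.Agent.Y517.NT.Geo
import Pool.Agent.Y455.SY.Pert
import Pool.Agent.Y484.SY.Gen

/-!
# Project NT, job NT-KSP: the compact space of unit null vectors
-/

set_option autoImplicit false

open Set Filter Topology MeasureTheory
open scoped Manifold ContDiff

noncomputable section

namespace Pool.Agent.Y815.NT

open Pool.Agent.Y501.SY
open Pool.Agent.Y455.SY (Q A B BA A_surj AB Q_eq Q_smul Q_cont)
open Pool.Agent.Y484.SY (comp_smooth dd_comp)
open Pool.Agent.Y517.NT

variable {d : ℕ} {X : Type} [TopologicalSpace X] [ChartedSpace (E d) X]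

/-- the null vectors in the charts at the points `xs i`, `i < N` -/
def KS (σ : Form d X 2) (J : End d X) (xs : ℕ → X) (r : X → ℝ) (N : ℕ) : Set (ℕ × (E d × E d)) :=
  {z | z.1 < N ∧ z.2 ∈ Metric.closedBall (chartAt (E d) (xs z.1) (xs z.1)) (r (xs z.1)) ×ˢ
    Metric.sphere (0 : E d) 1 ∧ Q σ J (xs z.1) z.2.1 z.2.2 = 0}

theorem cont_KS {Z : Type} [TopologicalSpace Z] (K : Set (ℕ × (E d × E d)))
    (F : ℕ → E d × E d → Z) (h : ∀ z ∈ K, ContinuousAt (F z.1) z.2) :
    Continuous (fun z : K => F z.1.1 z.1.2) := by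
  rw [continuous_iff_continuousAt]
  intro z0
  have h1 : ContinuousAt (fun z : K => F z0.1.1 z.1.2) z0 :=
    ContinuousAt.comp (f := fun z : K => z.1.2) (g := F z0.1.1) (x := z0) (h z0.1 z0.2)
      (by fun_prop)
  refine h1.congr ?_
  have h2 : ∀ᶠ z : K in 𝓝 z0, z.1.1 = z0.1.1 := by
    have h3 : ContinuousAt (fun z : K => z.1.1) z0 := by fun_prop
    exact h3.eventually ((isOpen_discrete {z0.1.1}).mem_nhds rfl)
  filter_upwards [h2] with z hz
  rw [hz]

variable [IsManifold (𝓡 d) ∞ X]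

theorem compact_KS {σ : Form d X 2} (hσ : IsSmooth σ) {J : End d X} (hJ : IsAlmostComplex J)
    (xs : ℕ → X) (r : X → ℝ) (N : ℕ)
    (hr : ∀ x, Metric.closedBall (chartAt (E d) x x) (r x) ⊆ (chartAt (E d) x).target) :
    IsCompact (KS σ J xs r N) := by
  have h1 : ∀ i, IsCompact {w : E d × E d | w ∈ Metric.closedBall
      (chartAt (E d) (xs i) (xs i)) (r (xs i)) ×ˢ Metric.sphere (0 : E d) 1 ∧
      Q σ J (xs i) w.1 w.2 = 0} := by
    intro i
    have hS : IsCompact (Metric.closedBall (chartAt (E d) (xs i) (xs i)) (r (xs i)) ×ˢ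
      Metric.sphere (0 : E d) 1) := (isCompact_closedBall _ _).prod (isCompact_sphere _ _)
    have hc : ContinuousOn (fun w : E d × E d => Q σ J (xs i) w.1 w.2)
        (Metric.closedBall (chartAt (E d) (xs i) (xs i)) (r (xs i)) ×ˢ
          Metric.sphere (0 : E d) 1) := fun w hw =>
      (Q_cont hσ hJ (xs i) (p := w.1) (v := w.2) (hr _ hw.1)).continuousWithinAt
    exact hS.of_isClosed_subset (hc.preimage_isClosed_of_isClosed hS.isClosed
      (isClosed_singleton (x := (0 : ℝ)))) inter_subset_left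
  have h2 : KS σ J xs r N = ⋃ i ∈ {i : ℕ | i < N}, ({i} : Set ℕ) ×ˢ {w : E d × E d | w ∈
      Metric.closedBall (chartAt (E d) (xs i) (xs i)) (r (xs i)) ×ˢ Metric.sphere (0 : E d) 1 ∧
      Q σ J (xs i) w.1 w.2 = 0} := by
    ext ⟨i, w⟩
    simp only [KS, mem_ofPred_eq, mem_iUnion, mem_prod, mem_singleton_iff, exists_prop]
    constructor
    · rintro ⟨a, b, c⟩
      exact ⟨i, a, rfl, b, c⟩
    · rintro ⟨j, a, rfl, b, c⟩
      exact ⟨a, b, c⟩
  rw [h2]
  exact (Set.finite_lt_nat N).isCompact_biUnion fun i _ => isCompact_singleton.prod (h1 i)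

theorem J_A (J : End d X) (x : X) {p : E d} (hp : p ∈ (chartAt (E d) x).target) (v : E d) :
    J ((chartAt (E d) x).symm p) (A x p v) = A x p (inChart J x p v) := (AB x hp _).symm

theorem fd_cont {f : X → ℝ} (hf : SmoothFun (d := d) f) (x : X) {p : E d}
    (hp : p ∈ (chartAt (E d) x).target) :
    ContinuousAt (fderiv ℝ (f ∘ (chartAt (E d) x).symm)) p :=
  (((comp_smooth (contMDiffOn_chart_symm) hf).fderiv_of_isOpen (chartAt (E d) x).open_target
    (m := ∞) (by simp)).continuousOn).continuousAt ((chartAt (E d) x).open_target.mem_nhds hp)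

theorem t_KSP : S_KSP := by
  intro d X _ _ _ _ _ J hJ σ hσ
  rcases isEmpty_or_nonempty X with hX | ⟨⟨x0⟩⟩
  · refine ⟨Empty, inferInstance, inferInstance, fun z => z.elim, fun z => z.elim,
      continuous_of_const fun z => z.elim, fun z => z.elim, fun z => z.elim,
      fun f _ => ⟨continuous_of_const fun z => z.elim, continuous_of_const fun z => z.elim⟩,
      fun η _ => continuous_of_const fun z => z.elim, fun x => (hX.false x).elim⟩
  have h1 : ∀ x : X, ∃ r : ℝ, 0 < r ∧
      Metric.closedBall (chartAt (E d) x x) r ⊆ (chartAt (E d) x).target := by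
    intro x
    exact Metric.nhds_basis_closedBall.mem_iff.1
      ((chartAt (E d) x).open_target.mem_nhds (mem_chart_target (E d) x))
  choose r hr0 hr using h1
  obtain ⟨t, -, ht⟩ := (isCompact_univ (X := X)).elim_nhds_subcover
    (fun x => (chartAt (E d) x).source ∩ (chartAt (E d) x) ⁻¹'
      Metric.ball (chartAt (E d) x x) (r x))
    (fun x _ => ((chartAt (E d) x).isOpen_inter_preimage Metric.isOpen_ball).mem_nhds
      ⟨mem_chart_source (E d) x, Metric.mem_ball_self (hr0 x)⟩)
  obtain ⟨N, xs, hxs⟩ : ∃ (N : ℕ) (xs : ℕ → X), ∀ x : X, ∃ i < N, x ∈ (chartAt (E d) (xs i)).source ∧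
      chartAt (E d) (xs i) x ∈ Metric.ball (chartAt (E d) (xs i) (xs i)) (r (xs i)) := by
    classical
    refine ⟨t.card, fun i => if h : i < t.card then (t.equivFin.symm ⟨i, h⟩ : X) else x0,
      fun x => ?_⟩
    have h2 := ht (mem_univ x)
    simp only [mem_iUnion, exists_prop] at h2
    obtain ⟨y, hy, hxy⟩ := h2
    refine ⟨t.equivFin ⟨y, hy⟩, (t.equivFin ⟨y, hy⟩).2, ?_⟩
    have h3 : (if h : ((t.equivFin ⟨y, hy⟩ : Fin t.card) : ℕ) < t.card then
        (t.equivFin.symm ⟨(t.equivFin ⟨y, hy⟩ : Fin t.card), h⟩ : X) else x0) = y := by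
      rw [dif_pos (t.equivFin ⟨y, hy⟩).2]
      simp
    simp only [h3]
    exact hxy
  have hT : ∀ z ∈ KS σ J xs r N, z.2.1 ∈ (chartAt (E d) (xs z.1)).target := fun z hz =>
    hr _ hz.2.1.1
  have hK := compact_KS hσ hJ xs r N hr
  refine ⟨KS σ J xs r N, inferInstance, isCompact_iff_compactSpace.1 hK,
    fun z => (chartAt (E d) (xs z.1.1)).symm z.1.2.1, fun z => A (xs z.1.1) z.1.2.1 z.1.2.2,
    ?_, ?_, ?_, ?_, ?_, ?_⟩
  · refine cont_KS _ (fun i w => (chartAt (E d) (xs i)).symm w.1) fun z hz => ?_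
    exact ContinuousAt.comp (f := Prod.fst) (x := z.2) (g := (chartAt (E d) (xs z.1)).symm)
      ((chartAt (E d) (xs z.1)).symm.continuousAt (hT z hz)) continuousAt_fst
  · intro z h0
    have h2 := BA (xs z.1.1) (hT _ z.2) z.1.2.2
    have h3 : A (xs z.1.1) z.1.2.1 z.1.2.2 = (0 : E d) := h0
    rw [h3, map_zero] at h2
    have h4 : ‖z.1.2.2‖ = 1 := by simpa using z.2.2.1.2
    rw [← h2, norm_zero] at h4
    exact zero_ne_one h4
  · intro z
    have h2 := Q_eq σ J (xs z.1.1) (hT _ z.2) z.1.2.2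
    rw [z.2.2.2] at h2
    exact h2.symm
  · intro f hf
    have hsm : ∀ x : X, ContMDiffOn (𝓡 d) (𝓡 d) ∞ (chartAt (E d) x).symm
      (chartAt (E d) x).target := fun x => contMDiffOn_chart_symm
    constructor
    · have h2 := cont_KS (KS σ J xs r N)
        (fun i w => fderiv ℝ (f ∘ (chartAt (E d) (xs i)).symm) w.1 w.2) fun z hz => by
          have h3 : ContinuousAt (fun w : E d × E d =>
              fderiv ℝ (f ∘ (chartAt (E d) (xs z.1)).symm) w.1) z.2 :=
            ContinuousAt.comp (f := Prod.fst) (x := z.2)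
              (g := fderiv ℝ (f ∘ (chartAt (E d) (xs z.1)).symm))
              (fd_cont hf (xs z.1) (hT z hz)) continuousAt_fst
          exact h3.clm_apply continuousAt_snd
      refine h2.congr fun z => ?_
      exact (dd_comp (chartAt (E d) (xs z.1.1)).open_target (hsm _) hf (hT _ z.2) z.1.2.2).symm
    · have h2 := cont_KS (KS σ J xs r N)
        (fun i w => fderiv ℝ (f ∘ (chartAt (E d) (xs i)).symm) w.1 (inChart J (xs i) w.1 w.2))
        fun z hz => by
          have h3 : ContinuousAt (fun w : E d × E d =>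
              fderiv ℝ (f ∘ (chartAt (E d) (xs z.1)).symm) w.1) z.2 :=
            ContinuousAt.comp (f := Prod.fst) (x := z.2)
              (g := fderiv ℝ (f ∘ (chartAt (E d) (xs z.1)).symm))
              (fd_cont hf (xs z.1) (hT z hz)) continuousAt_fst
          have h4 : ContinuousAt (fun w : E d × E d => inChart J (xs z.1) w.1) z.2 :=
            ContinuousAt.comp (f := Prod.fst) (x := z.2) (g := inChart J (xs z.1))
              ((hJ.cont (xs z.1)).continuousAt
                ((chartAt (E d) (xs z.1)).open_target.mem_nhds (hT z hz))) continuousAt_fst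
          exact h3.clm_apply (h4.clm_apply continuousAt_snd)
      refine h2.congr fun z => ?_
      have h5 := dd_comp (chartAt (E d) (xs z.1.1)).open_target (hsm _) hf (hT _ z.2)
        (inChart J (xs z.1.1) z.1.2.1 z.1.2.2)
      rw [← h5]
      exact congrArg (dd f ((chartAt (E d) (xs z.1.1)).symm z.1.2.1))
        (J_A J (xs z.1.1) (hT _ z.2) z.1.2.2).symm
  · intro η hη
    have h2 := cont_KS (KS σ J xs r N) (fun i w => Q η J (xs i) w.1 w.2) fun z hz =>
      Q_cont hη hJ (xs z.1) (p := z.2.1) (v := z.2.2) (hT z hz)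
    refine h2.congr fun z => ?_
    exact Q_eq η J (xs z.1.1) (hT _ z.2) z.1.2.2
  · intro x
    obtain ⟨i, hi, hx1, hx2⟩ := hxs x
    have hu : chartAt (E d) (xs i) x ∈ (chartAt (E d) (xs i)).target :=
      (chartAt (E d) (xs i)).map_source hx1
    have claim : ∀ y : X, y = x → (chartAt (E d) (xs i)).symm (chartAt (E d) (xs i) x) = y →
        ∀ w : TangentSpace (𝓡 d) y, w ≠ 0 → σ y ![w, J y w] = 0 →
        ∃ (z : KS σ J xs r N) (t : ℝ), 0 < t ∧
          (chartAt (E d) (xs z.1.1)).symm z.1.2.1 = y ∧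
          ∀ η : Form d X 2, η y ![w, J y w] = t * η ((chartAt (E d) (xs z.1.1)).symm z.1.2.1)
            ![A (xs z.1.1) z.1.2.1 z.1.2.2, J ((chartAt (E d) (xs z.1.1)).symm z.1.2.1)
              (A (xs z.1.1) z.1.2.1 z.1.2.2)] := by
      rintro y - rfl w hw h0
      obtain ⟨v0, hv0⟩ := A_surj (xs i) hu w
      have hv0ne : v0 ≠ 0 := by
        rintro rfl
        apply hw
        rw [← hv0, map_zero]
        rfl
      have hs : 0 < ‖v0‖ := norm_pos_iff.2 hv0ne
      have h2 : ∀ η : Form d X 2, Q η J (xs i) (chartAt (E d) (xs i) x) v0 =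
          η ((chartAt (E d) (xs i)).symm (chartAt (E d) (xs i) x))
            ![w, J ((chartAt (E d) (xs i)).symm (chartAt (E d) (xs i) x)) w] := by
        intro η
        rw [Q_eq η J (xs i) hu, hv0]
      have h3 : ∀ η : Form d X 2, Q η J (xs i) (chartAt (E d) (xs i) x) v0 =
          ‖v0‖ ^ 2 * Q η J (xs i) (chartAt (E d) (xs i) x) (‖v0‖⁻¹ • v0) := by
        intro η
        rw [← Q_smul, smul_smul, mul_inv_cancel₀ hs.ne', one_smul]
      have h4 : Q σ J (xs i) (chartAt (E d) (xs i) x) (‖v0‖⁻¹ • v0) = 0 := by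
        have h5 := h3 σ
        rw [h2 σ, h0] at h5
        rcases mul_eq_zero.1 h5.symm with h6 | h6
        · exact absurd h6 (pow_pos hs 2).ne'
        · exact h6
      refine ⟨⟨(i, (chartAt (E d) (xs i) x, ‖v0‖⁻¹ • v0)), hi, ⟨Metric.ball_subset_closedBall hx2,
        ?_⟩, h4⟩, ‖v0‖ ^ 2, pow_pos hs 2, rfl, fun η => ?_⟩
      · show ‖v0‖⁻¹ • v0 ∈ Metric.sphere (0 : E d) 1
        rw [mem_sphere_zero_iff_norm, norm_smul, norm_inv, norm_norm, inv_mul_cancel₀ hs.ne']
      · rw [← h2 η, h3 η, Q_eq η J (xs i) hu]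
    exact claim x rfl ((chartAt (E d) (xs i)).left_inv hx1)

end Pool.Agent.Y815.NT
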